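import Pool.Agent.Helper99.SC.GeoStmts

set_option autoImplicit false

namespace Pool.Agent.Helper99.SC.CRR

open Pool.Agent.Helper99.SC

variable {ops : List Op}

theorem tt_slots {t : Pl} (h : IsTT ops t) :
    t.2.1 = 0 ∧ (t.2.2.2 = 4 ∨ t.2.2.2 = 11 ∨ t.2.2.2 = 8 ∨ t.2.2.2 = 3 ∨ t.2.2.2 = 12 ∨
      t.2.2.2 = 7) := by
  unfold IsTT at h
  tauto

/-- swapping towards a target `tb` -/
theorem swap_tb {s t s' t' : Pl} (h : HR ops s t) (h' : HR ops s' t') (ht' : t'.2.1 = 1)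
    (hc : PCross s t s' t') : HR ops s t' := by
  obtain ⟨i, r, k, l⟩ := s
  obtain ⟨j, q, m, n⟩ := t
  obtain ⟨i', r', k', l'⟩ := s'
  obtain ⟨j', q', m', n'⟩ := t'
  simp only at ht'
  subst ht'
  obtain ⟨h1, ⟨-, h2⟩ | h2 | ⟨h3, h2⟩⟩ := h'
  · refine ⟨h.1, Or.inl ?_⟩
    simp only at h2
    obtain ⟨rfl, rfl, h2⟩ := h2
    obtain ⟨g1, g2 | g2 | ⟨g3, g2⟩⟩ := h
    · simp only [PCross, btw, outs, plt] at hc g2 ⊢
      obtain ⟨rfl, rfl, rfl, g2⟩ := g2
      rcases g2 with ⟨rfl, g2⟩ | ⟨rfl, g2⟩ | ⟨rfl, g2⟩ <;>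
      rcases h2 with ⟨rfl, h2⟩ | ⟨rfl, h2⟩ | ⟨rfl, h2⟩ <;>
      norm_num at hc ⊢ <;>
      omega
    · simp only [PCross, btw, outs, plt] at hc g2 ⊢
      obtain ⟨rfl, rfl, rfl, g2⟩ := g2
      rcases g2 with ⟨rfl, g2⟩ | ⟨rfl, g2⟩ | ⟨rfl, g2⟩ <;>
      rcases h2 with ⟨rfl, h2⟩ | ⟨rfl, h2⟩ | ⟨rfl, h2⟩ <;>
      norm_num at hc ⊢ <;>
      omega
    · obtain ⟨g3, g4⟩ := tt_slots g3
      simp only at g3 g4
      subst g3
      simp only [PCross, btw, outs, plt] at hc g2 ⊢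
      rcases g2 with ⟨rfl, g2⟩ | ⟨rfl, g2⟩ | ⟨rfl, g2⟩ <;>
      rcases h2 with ⟨rfl, h2⟩ | ⟨rfl, h2⟩ | ⟨rfl, h2⟩ <;>
      norm_num at hc ⊢ <;>
      omega
  · simp only at h2
    omega
  · replace h3 := tt_slots h3
    simp only at h3
    omega

/-- swapping towards a target `tc` -/
theorem swap_tc {s t s' t' : Pl} (h : HR ops s t) (h' : HR ops s' t') (ht' : t'.2.1 = 3)
    (hc : PCross s t s' t') : HR ops s t' := by
  obtain ⟨i, r, k, l⟩ := s
  obtain ⟨j, q, m, n⟩ := t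
  obtain ⟨i', r', k', l'⟩ := s'
  obtain ⟨j', q', m', n'⟩ := t'
  simp only at ht'
  subst ht'
  obtain ⟨h1, h2 | ⟨-, h2⟩ | ⟨h3, h2⟩⟩ := h'
  · simp only at h2
    omega
  · refine ⟨h.1, Or.inr (Or.inl ?_)⟩
    simp only at h2
    obtain ⟨rfl, rfl, h2⟩ := h2
    obtain ⟨g1, g2 | g2 | ⟨g3, g2⟩⟩ := h
    · simp only [PCross, btw, outs, plt] at hc g2 ⊢
      obtain ⟨rfl, rfl, rfl, g2⟩ := g2
      rcases g2 with ⟨rfl, g2⟩ | ⟨rfl, g2⟩ | ⟨rfl, g2⟩ <;>
      rcases h2 with ⟨rfl, h2⟩ | ⟨rfl, h2⟩ | ⟨rfl, h2⟩ <;>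
      norm_num at hc ⊢ <;>
      omega
    · simp only [PCross, btw, outs, plt] at hc g2 ⊢
      obtain ⟨rfl, rfl, rfl, g2⟩ := g2
      rcases g2 with ⟨rfl, g2⟩ | ⟨rfl, g2⟩ | ⟨rfl, g2⟩ <;>
      rcases h2 with ⟨rfl, h2⟩ | ⟨rfl, h2⟩ | ⟨rfl, h2⟩ <;>
      norm_num at hc ⊢ <;>
      omega
    · obtain ⟨g3, g4⟩ := tt_slots g3
      simp only at g3 g4
      subst g3
      simp only [PCross, btw, outs, plt] at hc g2 ⊢
      rcases g2 with ⟨rfl, g2⟩ | ⟨rfl, g2⟩ | ⟨rfl, g2⟩ <;>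
      rcases h2 with ⟨rfl, h2⟩ | ⟨rfl, h2⟩ | ⟨rfl, h2⟩ <;>
      norm_num at hc ⊢ <;>
      omega
  · replace h3 := tt_slots h3
    simp only at h3
    omega

/-- swapping towards a target in a `T` row -/
theorem swap_tt {s t s' t' : Pl} (h : HR ops s t) (h' : HR ops s' t') (ht' : t'.2.1 = 0)
    (hc : PCross s t s' t') : HR ops s t' ∨
      (t'.2.2.2 = 8 ∧ s = (t'.1 - 1, 3, t'.2.2.1, 4) ∧ t = (t'.1, 0, t'.2.2.1, 11)) := by
  obtain ⟨i, r, k, l⟩ := s
  obtain ⟨j, q, m, n⟩ := t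
  obtain ⟨i', r', k', l'⟩ := s'
  obtain ⟨j', q', m', n'⟩ := t'
  simp only at ht'
  subst ht'
  obtain ⟨h1, h2 | h2 | ⟨h3, h2⟩⟩ := h'
  · simp only at h2
    omega
  · simp only at h2
    omega
  · by_cases he : n' = 8 ∧ (⟨i, r, k, l⟩ : Pl) = (j' - 1, 3, m', 4) ∧
        (⟨j, q, m, n⟩ : Pl) = (j', 0, m', 11)
    · exact Or.inr he
    refine Or.inl ⟨h.1, Or.inr (Or.inr ⟨h3, ?_⟩)⟩
    obtain ⟨-, h4⟩ := tt_slots h3
    obtain ⟨g1, g2 | g2 | ⟨g3, g2⟩⟩ := h
    · simp only [PCross, btw, outs, plt, Prod.mk.injEq] at hc g2 h2 h4 he ⊢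
      obtain ⟨rfl, rfl, rfl, g2⟩ := g2
      rcases g2 with ⟨rfl, g2⟩ | ⟨rfl, g2⟩ | ⟨rfl, g2⟩ <;>
      rcases h2 with ⟨rfl, h2⟩ | ⟨rfl, h2⟩ | ⟨rfl, h2⟩ <;>
      norm_num at hc he ⊢ <;>
      omega
    · simp only [PCross, btw, outs, plt, Prod.mk.injEq] at hc g2 h2 h4 he ⊢
      obtain ⟨rfl, rfl, rfl, g2⟩ := g2
      rcases g2 with ⟨rfl, g2⟩ | ⟨rfl, g2⟩ | ⟨rfl, g2⟩ <;>
      rcases h2 with ⟨rfl, h2⟩ | ⟨rfl, h2⟩ | ⟨rfl, h2⟩ <;>
      norm_num at hc he ⊢ <;>
      omega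
    · obtain ⟨g3, g4⟩ := tt_slots g3
      simp only at g3 g4
      subst g3
      simp only [PCross, btw, outs, plt, Prod.mk.injEq] at hc g2 h2 h4 he ⊢
      rcases g2 with ⟨rfl, g2⟩ | ⟨rfl, g2⟩ | ⟨rfl, g2⟩ <;>
      rcases h2 with ⟨rfl, h2⟩ | ⟨rfl, h2⟩ | ⟨rfl, h2⟩ <;>
      norm_num at hc he ⊢ <;>
      omega

/-- the main edge to `v` is never obtained by swapping -/
theorem main_v {s t s' t' : Pl} (h : HR ops s t) (h' : HR ops s' t') (ht' : t'.2.1 = 0)
    (hv : t'.2.2.2 = 4) (hs : s.2.1 = 1 ∧ s.2.2.2 = 1 ∧ s.2.2.1 = t'.2.2.1) (hi : s.1 = t'.1)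
    (hc : PCross s t s' t') : False := by
  obtain ⟨i, r, k, l⟩ := s
  obtain ⟨j, q, m, n⟩ := t
  obtain ⟨i', r', k', l'⟩ := s'
  obtain ⟨j', q', m', n'⟩ := t'
  simp only at ht' hv hs hi
  obtain ⟨rfl, rfl, rfl⟩ := hs
  subst ht' hv hi
  obtain ⟨h1, h2 | h2 | ⟨h3, h2⟩⟩ := h'
  · simp only at h2
    omega
  · simp only at h2
    omega
  · obtain ⟨g1, g2 | g2 | ⟨g3, g2⟩⟩ := h
    · simp only [PCross, btw, outs, plt] at hc g2 h2
      obtain ⟨rfl, rfl, rfl, g2⟩ := g2
      rcases h2 with ⟨rfl, h2⟩ | ⟨rfl, h2⟩ | ⟨rfl, h2⟩ <;>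
      norm_num at hc <;>
      omega
    · simp only at g2
      omega
    · obtain ⟨g3, g4⟩ := tt_slots g3
      simp only at g3 g4
      subst g3
      simp only [PCross, btw, outs, plt] at hc g2 h2
      rcases h2 with ⟨rfl, h2⟩ | ⟨rfl, h2⟩ | ⟨rfl, h2⟩ <;>
      norm_num at hc g2 <;>
      omega

/-- the main edge to `u` is never obtained by swapping -/
theorem main_u {s t s' t' : Pl} (h : HR ops s t) (h' : HR ops s' t') (ht' : t'.2.1 = 0)
    (hv : t'.2.2.2 = 11) (hs : s.2.1 = 3 ∧ s.2.2.2 = 4 ∧ s.2.2.1 = t'.2.2.1) (hi : t'.1 = s.1 + 1)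
    (hc : PCross s t s' t') : False := by
  obtain ⟨i, r, k, l⟩ := s
  obtain ⟨j, q, m, n⟩ := t
  obtain ⟨i', r', k', l'⟩ := s'
  obtain ⟨j', q', m', n'⟩ := t'
  simp only at ht' hv hs hi
  obtain ⟨rfl, rfl, rfl⟩ := hs
  subst ht' hv hi
  obtain ⟨h1, h2 | h2 | ⟨h3, h2⟩⟩ := h'
  · simp only at h2
    omega
  · simp only at h2
    omega
  · obtain ⟨g1, g2 | g2 | ⟨g3, g2⟩⟩ := h
    · simp only at g2
      omega
    · simp only [PCross, btw, outs, plt] at hc g2 h2
      obtain ⟨rfl, rfl, rfl, g2⟩ := g2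
      rcases h2 with ⟨rfl, h2⟩ | ⟨rfl, h2⟩ | ⟨rfl, h2⟩ <;>
      norm_num at hc <;>
      omega
    · obtain ⟨g3, g4⟩ := tt_slots g3
      simp only at g3 g4
      subst g3
      simp only [PCross, btw, outs, plt] at hc g2 h2
      rcases h2 with ⟨rfl, h2⟩ | ⟨rfl, h2⟩ | ⟨rfl, h2⟩ <;>
      norm_num at hc g2 <;>
      omega

/-- swapping of an edge from `sd`, `zd` towards `v` in an `L` column -/
theorem alpha_v {s t s' t' : Pl} (h : HR ops s t) (h' : HR ops s' t') (ht' : t'.2.1 = 0)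
    (hv : t'.2.2.2 = 4) (hs : s.2.1 = 3 ∧ s.2.2.1 = t'.2.2.1) (hi : t'.1 = s.1 + 1)
    (hl : opAt ops t'.1 = (2, t'.2.2.1))
    (hc : PCross s t s' t') : (s'.2.1 = 3 ∧ s'.2.2.1 = t'.2.2.1) ∨
      t = (t'.1, 0, t'.2.2.1, 11) := by
  obtain ⟨i, r, k, l⟩ := s
  obtain ⟨j, q, m, n⟩ := t
  obtain ⟨i', r', k', l'⟩ := s'
  obtain ⟨j', q', m', n'⟩ := t'
  simp only at ht' hv hs hi hl
  obtain ⟨rfl, rfl⟩ := hs
  subst ht' hv hi
  simp only [Prod.mk.injEq]
  obtain ⟨h1, h2 | h2 | ⟨h3, h2⟩⟩ := h'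
  · simp only at h2
    omega
  · simp only at h2
    omega
  · obtain ⟨g1, g2 | g2 | ⟨g3, g2⟩⟩ := h
    · simp only at g2
      omega
    · simp only [PCross, btw, outs, plt] at hc g2 h2
      obtain ⟨rfl, rfl, rfl, g2⟩ := g2
      rcases h2 with ⟨rfl, h2⟩ | ⟨rfl, h2⟩ | ⟨rfl, h2⟩ <;>
      norm_num at hc ⊢ <;>
      omega
    · unfold IsTT at g3
      simp only at g3
      obtain ⟨rfl, g3⟩ := g3
      simp only [PCross, btw, outs, plt] at hc g2 h2
      norm_num at g2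
      obtain ⟨rfl, g2, g4⟩ := g2
      rw [hl] at g3
      norm_num at g3
      rcases h2 with ⟨rfl, h2⟩ | ⟨rfl, h2⟩ | ⟨rfl, h2⟩ <;>
      norm_num at hc ⊢ <;>
      omega

theorem pr_of_pg {X : ℕ → ℕ → Bool} {b : Bool} {s t : Pl} (h : HR ops s t)
    (hp : Pg ops X b s t) : PR ops X b s t := by
  rcases hp with hp | hp | hp | hp | hp
  · exact hp
  · exfalso
    have h1 := hp.1
    obtain ⟨h0, h | h | ⟨ht, h⟩⟩ := h
    · unfold HY at h1
      omega
    · unfold HY at h1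
      omega
    · have := tt_slots ht
      unfold HY at h1
      omega
  · exfalso
    have h1 := hp.1
    obtain ⟨h0, h⟩ := h
    unfold HT at h1
    omega
  · exfalso
    have h1 := hp.1.1
    obtain ⟨h0, h⟩ := h
    subst h1
    simp only at h
    omega
  · exfalso
    have h1 := hp.1
    obtain ⟨h0, h⟩ := h
    unfold HD at h1
    rcases h1 with ⟨h1, -⟩ | ⟨h1, h2, h3⟩
    · subst h1
      simp only at h
      omega
    · omega

theorem sg_cRR : M_cRR := by
  intro K ops X hops hX b s t s' t' hs ht hs' ht' hRR hP hP' hc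
  obtain ⟨hR, hR'⟩ := hRR
  have p := pr_of_pg hR hP
  have p' := pr_of_pg hR' hP'
  left
  have p1 := p'.2
  rcases p1 with p1 | p1 | p1 | p1
  · have h2 : HR ops s t' := by
      rcases p1.1 with h | h
      · exact swap_tb hR hR' h hc
      · exact swap_tc hR hR' h hc
    exact ⟨h2, Or.inl p1⟩
  · obtain ⟨h0, h1, p1⟩ := p1
    rcases swap_tt hR hR' h0 hc with h2 | ⟨h2, -, -⟩
    · refine ⟨h2, Or.inr (Or.inl ⟨h0, h1, ?_⟩)⟩
      have hTT : IsTT ops t' := by
        obtain ⟨-, h | h | ⟨h, -⟩⟩ := h2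
        · omega
        · omega
        · exact h
      rcases p1 with ⟨h4, p1⟩ | ⟨h4, p1⟩ | ⟨h4, h5, p1⟩
      · left
        refine ⟨h4, ?_⟩
        by_cases hm : s.2.1 = 1 ∧ s.2.2.2 = 1 ∧ s.2.2.1 = t'.2.2.1
        · exfalso
          refine main_v hR hR' h0 h4 hm ?_ hc
          obtain ⟨-, h | h | ⟨h, h'⟩⟩ := h2
          · omega
          · omega
          · omega
        · right
          refine ⟨hm, ?_⟩
          rcases p1 with ⟨-, -, -, p1⟩ | ⟨-, p1⟩
          · rw [p1]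
            cases X t'.1 t'.2.2.1 <;> simp
          · exact p1
      · right; left
        refine ⟨h4, ?_⟩
        by_cases hm : s.2.1 = 3 ∧ s.2.2.2 = 4 ∧ s.2.2.1 = t'.2.2.1
        · exfalso
          refine main_u hR hR' h0 h4 hm ?_ hc
          obtain ⟨-, h | h | ⟨h, h'⟩⟩ := h2
          · omega
          · omega
          · omega
        · right
          refine ⟨hm, ?_⟩
          rcases p1 with ⟨-, -, -, p1⟩ | ⟨-, p1⟩
          · rw [p1]
            cases X (t'.1 - 1) t'.2.2.1 <;> simp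
          · exact p1
      · right; right
        exact ⟨h4, h5, p1⟩
    · exfalso
      obtain ⟨-, h | h | ⟨h, -⟩⟩ := hR'
      · omega
      · omega
      · unfold IsTT at h
        rcases h with ⟨-, h | h | h | h | h | h⟩
        · omega
        · omega
        · rw [h.2] at h1
          simp at h1
        · omega
        · omega
        · omega
  · obtain ⟨h0, h1, p1⟩ := p1
    rcases swap_tt hR hR' h0 hc with h2 | ⟨h2, h3, h4⟩
    · refine ⟨h2, Or.inr (Or.inr (Or.inl ⟨h0, h1, ?_⟩))⟩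
      rcases p1 with p1 | p1 | ⟨h4, p1⟩
      · exact Or.inl p1
      · exact Or.inr (Or.inl p1)
      · right; right
        refine ⟨h4, ?_⟩
        by_cases hm : s.2.1 = 1 ∧ s.2.2.2 = 1 ∧ s.2.2.1 = t'.2.2.1
        · exfalso
          refine main_v hR hR' h0 h4 hm ?_ hc
          obtain ⟨-, h | h | ⟨h, h'⟩⟩ := h2
          · omega
          · omega
          · omega
        by_cases ha : s.2.1 = 3 ∧ s.2.2.1 = t'.2.2.1
        · left
          refine ⟨ha.1, ha.2, ?_⟩
          have hi : t'.1 = s.1 + 1 := by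
            obtain ⟨-, h | h | ⟨h, h'⟩⟩ := h2
            · omega
            · omega
            · omega
          rcases alpha_v hR hR' h0 h4 ha hi h1 hc with h5 | h5
          · rcases p1 with p1 | p1 | p1
            · exact p1.2.2
            · omega
            · exact absurd h5 p1.1
          · -- the page of `t = u`
            have pt := p.2
            rw [h5] at pt
            have e1 : b = X (t'.1 - 1) t'.2.2.1 := by
              rcases pt with pt | pt | pt | pt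
              · simp at pt
              · rw [h1] at pt
                simp at pt
              · obtain ⟨-, -, pt | pt | pt⟩ := pt
                · exact pt.2
                · simp at pt
                · simp at pt
              · rw [h1] at pt
                simp at pt
            have e2 : ops.getD (t'.1 - 1) (9, 0) = (2, t'.2.2.1) := by
              have := h1
              unfold opAt at this
              rw [if_neg (by omega)] at this
              exact this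
            have hlen : t'.1 - 1 < ops.length := by
              by_contra hlen
              rw [List.getD_eq_default _ _ (by omega)] at e2
              simp at e2
            have hrun := hX (t'.1 - 1) hlen
            rw [e2, show t'.1 - 1 + 1 = t'.1 by omega] at hrun
            have hval : Op.Valid K (2, t'.2.2.1) := by
              apply hops
              rw [← e2]
              rw [List.getD_eq_getElem _ _ hlen]
              exact List.getElem_mem hlen
            obtain ⟨hr1, hr2⟩ := hrun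
            have hk := hval.2.2.2 rfl
            have hk2 := hval.2.1
            simp only at hk hk2
            have e3 := hr1 (t'.2.2.1 - 1) (by omega) (by omega)
            rcases p1 with p1 | p1 | p1
            · exact p1.2.2
            · have e4 := p1.2.2.2
              rw [← e1, ← e4] at hr2
              rw [e3]
              cases b <;> cases hh : X (t'.1 - 1) (t'.2.2.1 - 1) <;> simp_all
            · rcases p1.2.2 with e4 | e4
              · rw [← e1, ← e4] at hr2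
                rw [e3]
                cases b <;> cases hh : X (t'.1 - 1) (t'.2.2.1 - 1) <;> simp_all
              · exact e4
        · right; right
          refine ⟨ha, hm, ?_⟩
          rcases p1 with p1 | p1 | p1
          · exact Or.inr p1.2.2
          · exact Or.inl p1.2.2.2
          · exact p1.2.2
    · exfalso
      have e1 : b = !X (t'.1 - 1) t'.2.2.1 := by
        rcases p1 with p1 | p1 | p1
        · omega
        · exact p1.2
        · omega
      have pt := p.2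
      rw [h4] at pt
      rcases pt with pt | pt | pt | pt
      · simp at pt
      · rw [h1] at pt
        simp at pt
      · obtain ⟨-, -, pt | pt | pt⟩ := pt
        · have := pt.2
          rw [this] at e1
          simp at e1
        · simp at pt
        · simp at pt
      · rw [h1] at pt
        simp at pt
  · obtain ⟨h0, h1, h1', p1⟩ := p1
    rcases swap_tt hR hR' h0 hc with h2 | ⟨h2, h3, h4⟩
    · exact ⟨h2, Or.inr (Or.inr (Or.inr ⟨h0, h1, h1', p1⟩))⟩
    · exfalso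
      omega

end Pool.Agent.Helper99.SC.CRR
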